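import Pool.Agent.H34.TAM.Fin
import Pool.Agent.H55.TAM.CDE
import Pool.Agent.H50.TAM.DIC
import Pool.Agent.H83.TAM.EXJ
import Pool.Agent.H2.TAM.INE
import Pool.Agent.H38.TAM.JON
import Pool.Agent.H64.TAM.LIN
import Pool.Agent.H12.TAM.LSU
import Pool.Agent.H20.TAM.LTP
import Pool.Agent.H66.TAM.N2M
import Pool.Agent.H86.TAM.ONE
import Pool.Agent.H65.TAM.QDE
import Pool.Agent.H56.TAM.SUB
import Pool.Agent.H2.TAM.VAN

/-!
Board tam: all rows together.
-/

set_option autoImplicit false

noncomputable section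

namespace Pool.TAM

theorem ine' : INEStmt := ine_thm (qde_thm sub_thm) (cde_thm sub_thm) n2m_thm

theorem lin' : LINStmt := lin_thm lsu_thm

theorem jon' : JONStmt := jon_thm (exj_thm van_thm) ltp_thm

end Pool.TAM
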