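import Pool.Agent.H34.TAM.Stmts2

/-!
Board aut, helper34: algebraically free tuples.
-/

set_option autoImplicit false

noncomputable section

namespace Pool.AUT

open Pool.CGR Pool.CGS Pool.TAM

theorem lift_pe {m : ℕ} {A : Type} [Ring A] [Algebra ℂ A] (x : Fin m → A)
    (P : List (Fin m) →₀ ℂ) : FreeAlgebra.lift ℂ x (pe io P) = pe x P := by
  unfold pe
  rw [Finsupp.sum, map_sum]
  refine Finset.sum_congr rfl fun w _ => ?_
  rw [map_smul]
  congr 1
  unfold ev
  rw [map_list_prod, List.map_map]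
  congr 1
  refine List.map_congr_left fun j _ => ?_
  simp [io]

theorem exists_pe {m : ℕ} (q : Fr m) : ∃ P : List (Fin m) →₀ ℂ, pe io P = q := by
  induction q using FreeAlgebra.induction with
  | grade0 r =>
    refine ⟨Finsupp.single [] r, ?_⟩
    unfold pe
    rw [Finsupp.sum_single_index (by simp)]
    simp [ev, Algebra.algebraMap_eq_smul_one]
  | grade1 j =>
    refine ⟨Finsupp.single [j] 1, ?_⟩
    unfold pe
    rw [Finsupp.sum_single_index (by simp)]
    simp [ev]
  | mul a b ha hb =>
    obtain ⟨P, rfl⟩ := ha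
    obtain ⟨Q, rfl⟩ := hb
    refine ⟨P.sum fun w r => Q.sum fun v s => Finsupp.single (w ++ v) (r * s), ?_⟩
    have hadd : ∀ P Q : List (Fin m) →₀ ℂ, pe (io (m := m)) (P + Q) = pe io P + pe io Q := by
      intro P Q
      unfold pe
      exact Finsupp.sum_add_index' (fun w => zero_smul ℂ _) (fun w r s => add_smul r s _)
    have hzero : pe (io (m := m)) (0 : List (Fin m) →₀ ℂ) = 0 := by
      unfold pe
      exact Finsupp.sum_zero_index
    let L : (List (Fin m) →₀ ℂ) →+ Fr m := ⟨⟨pe io, hzero⟩, hadd⟩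
    have hL : ∀ P, pe (io (m := m)) P = L P := fun _ => rfl
    rw [hL]
    simp only [Finsupp.sum, map_sum]
    have h1 : ∀ P : List (Fin m) →₀ ℂ, pe (io (m := m)) P = ∑ w ∈ P.support, P w • ev io w :=
      fun _ => rfl
    rw [h1 P, h1 Q, Finset.sum_mul]
    refine Finset.sum_congr rfl fun w _ => ?_
    rw [Finset.mul_sum]
    refine Finset.sum_congr rfl fun v _ => ?_
    have h2 : L (Finsupp.single (w ++ v) (P w * Q v)) = (P w * Q v) • ev io (w ++ v) := by
      show pe io (Finsupp.single (w ++ v) (P w * Q v)) = _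
      unfold pe
      rw [Finsupp.sum_single_index (by simp)]
    rw [h2]
    simp [ev, List.map_append, List.prod_append, smul_smul, mul_comm]
  | add a b ha hb =>
    obtain ⟨P, rfl⟩ := ha
    obtain ⟨Q, rfl⟩ := hb
    refine ⟨P + Q, ?_⟩
    unfold pe
    exact Finsupp.sum_add_index' (fun w => zero_smul ℂ _) (fun w r s => add_smul r s _)

theorem inj_of_free {m : ℕ} {A : Type} [Ring A] [Algebra ℂ A] (x : Fin m → A)
    (h : ∀ P : List (Fin m) →₀ ℂ, pe x P = 0 → P = 0) :
    Function.Injective (FreeAlgebra.lift ℂ x) := by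
  rw [injective_iff_map_eq_zero]
  intro q hq
  obtain ⟨P, rfl⟩ := exists_pe q
  rw [lift_pe] at hq
  rw [h P hq]
  unfold pe
  exact Finsupp.sum_zero_index

end Pool.AUT
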