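import Pool.Agent.H34.TAM.All
import Pool.Agent.H34.TAM.Fin2
import Pool.Agent.H50.AUT.AUT
import Pool.Agent.H55.AUT.BND
import Pool.Agent.H71.AUT.CHN
import Pool.Agent.H70.AUT.COM
import Pool.Agent.H38.AUT.CPE
import Pool.Agent.H1.AUT.DPE
import Pool.Agent.H26.AUT.DRX
import Pool.Agent.H19.AUT.EXC
import Pool.Agent.H52.AUT.GEN
import Pool.Agent.H53.AUT.GRA
import Pool.Agent.H1.AUT.JAC
import Pool.Agent.H62.AUT.JOC
import Pool.Agent.H86.AUT.LEM
import Pool.Agent.H49.AUT.MAT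
import Pool.Agent.H18.AUT.PDX
import Pool.Agent.H91.AUT.SCL
import Pool.Agent.H22.AUT.TDR
import Pool.Agent.H81.AUT.TRM

/-!
Board aut: all rows together.
-/

set_option autoImplicit false

noncomputable section

namespace Pool.AUT

open Pool.CGR Pool.CGS Pool.TAM

theorem jac' : JACStmt :=
  jac_thm (mat_thm chn_thm (com_thm tdr_thm)) (gra_thm trm_thm lem_thm scl_thm tdr_thm) trm_thm
    tdr_thm

theorem aut' : AUTStmt := aut_thm pdx_thm drx_thm jac' tdr_thm dpe_thm cpe_thm bnd_thm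

theorem gen' (m : ℕ) (A : Type) [CStarAlgebra A] (τ : A →ₗ[ℂ] ℂ) (hτ : IsTrace τ)
    (x y : Fin m → A) (hx : Function.Injective (FreeAlgebra.lift ℂ x))
    (hy : Function.Injective (FreeAlgebra.lift ℂ y))
    (hxy : Algebra.adjoin ℂ (Set.range x) = Algebra.adjoin ℂ (Set.range y)) (h : Yes τ x) :
    Yes τ y :=
  gen_thm aut' n2m_thm m A τ hτ x y hx hy hxy h

theorem joc' : JOCStmt := joc_thm exc_thm

end Pool.AUT
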