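import Pool.Agent.H34.TAM.All2
import Pool.Agent.H55.PER.APP
import Pool.Agent.H34.PER.DIF
import Pool.Agent.H53.PER.IDN
import Pool.Agent.H85.PER.LGT
import Pool.Agent.H1.PER.LNK
import Pool.Agent.H18.PER.MUD
import Pool.Agent.H31.PER.MUM
import Pool.Agent.H67.PER.MUS
import Pool.Agent.H31.PER.MUX
import Pool.Agent.H1.PER.NMM
import Pool.Agent.H50.PER.NUA
import Pool.Agent.H40.PER.NUF
import Pool.Agent.H24.PER.NUM
import Pool.Agent.H31.PER.NUX
import Pool.Agent.H22.PER.PEA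
import Pool.Agent.H34.PER.PER
import Pool.Agent.H91.PER.YDV

/-!
Board per: all rows together.
-/

set_option autoImplicit false

noncomputable section

namespace Pool.PER

open Pool.CGR Pool.CGS Pool.TAM Pool.AUT

theorem app' : APPStmt := app_thm mux_thm mum_thm (mus_thm mum_thm) mud_thm

theorem idn' : IDNStmt := idn_thm chn_thm (com_thm tdr_thm) tdr_thm trm_thm lgt_thm

theorem pea' : PEAStmt :=
  pea_thm drx_thm tdr_thm nua_thm nuf_thm (nmm_thm num_thm) idn' dif_thm34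

theorem per' (m : ℕ) (A : Type) [CStarAlgebra A] (τ : A →ₗ[ℂ] ℂ) (hτ : IsTrace τ)
    (x : Fin m → A) (p : Fin m → Fr m) (h : Yes τ x) : ∃ ε₀ : ℝ, 0 < ε₀ ∧ ∀ ε : ℂ, ‖ε‖ ≤ ε₀ →
      Yes τ (fun j => x j + ε • FreeAlgebra.lift ℂ x (p j)) :=
  per_thm34 pdx_thm tdr_thm dpe_thm nux_thm num_thm app' (lnk_thm cpe_thm drx_thm dif_thm34)
    (ydv_thm dpe_thm cpe_thm) pea' n2m_thm m A τ hτ x p h

end Pool.PER
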