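import Pool.Agent.H34.TAM.Stmts

/-!
Board tam, helper34: consequences of the rows.
-/

set_option autoImplicit false

noncomputable section

namespace Pool.TAM

open Pool.CGR Pool.CGS

variable {m : ℕ} {A : Type} [CStarAlgebra A]

theorem lt_neg {I : Set (Fin m)} {p : List (Fin m) →₀ ℂ} (h : Lt I p) : Lt I (-p) := by
  intro w hw
  exact h w (by simpa using hw)

theorem pe_neg (x : Fin m → A) (p : List (Fin m) →₀ ℂ) : pe x (-p) = - pe x p := by
  have h := ((pal_thm (Fin m) A (0 : A →ₗ[ℂ] ℂ) x).2.2.1 (-1) p).1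
  rwa [neg_one_smul, neg_one_smul] at h

theorem pe_congr (hSUB : SUBStmt) (x : Fin m → A) (i : Fin m) (p : List (Fin m) →₀ ℂ)
    (h : Lt {i}ᶜ p) : pe (el x i p) p = pe x p := by
  unfold pe
  refine Finset.sum_congr rfl fun w hw => ?_
  show p w • ev (el x i p) w = p w • ev x w
  rw [((hSUB m A x i p h []).2.2.2 w fun j hj => h w hw j hj).1]

theorem el_el (hSUB : SUBStmt) (x : Fin m → A) (i : Fin m) (p : List (Fin m) →₀ ℂ)
    (h : Lt {i}ᶜ p) : el (el x i p) i (-p) = x := by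
  have h1 := pe_congr hSUB x i p h
  unfold el at h1 ⊢
  rw [pe_neg, h1]
  simp

theorem li_li (x : Fin m → A) (T : Matrix (Fin m) (Fin m) ℂ) (hT : IsUnit T.det) :
    li T⁻¹ (li T x) = x := by
  funext j
  unfold li
  simp only [Finset.smul_sum, smul_smul]
  rw [Finset.sum_comm]
  have : ∀ k, ∑ l, (T⁻¹ j l * T l k) • x k = ((1 : Matrix (Fin m) (Fin m) ℂ) j k) • x k := by
    intro k
    rw [← Finset.sum_smul, ← Matrix.nonsing_inv_mul T hT, Matrix.mul_apply]
  rw [Finset.sum_congr rfl fun k _ => this k]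
  simp [Matrix.one_apply]

theorem elem_iff (hSUB : SUBStmt) (hINE : INEStmt) (τ : A →ₗ[ℂ] ℂ) (hτ : IsTrace τ)
    (x : Fin m → A) (i : Fin m) (p : List (Fin m) →₀ ℂ) (h : Lt {i}ᶜ p) :
    Yes τ x ↔ Yes τ (el x i p) := by
  refine ⟨hINE m A τ hτ x i p h, fun hy => ?_⟩
  have := hINE m A τ hτ (el x i p) i (-p) (lt_neg h) hy
  rwa [el_el hSUB x i p h] at this

theorem lin_iff (hLIN : LINStmt) (τ : A →ₗ[ℂ] ℂ) (hτ : IsTrace τ)
    (x : Fin m → A) (T : Matrix (Fin m) (Fin m) ℂ) (hT : IsUnit T.det) :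
    Yes τ x ↔ Yes τ (li T x) := by
  refine ⟨hLIN m A τ hτ x T hT, fun hy => ?_⟩
  have := hLIN m A τ hτ (li T x) T⁻¹ (by
    rw [Matrix.isUnit_nonsing_inv_det_iff]
    exact hT) hy
  rwa [li_li x T hT] at this

theorem yes_iff_univ (τ : A →ₗ[ℂ] ℂ) (x : Fin m → A) : YesOn τ x Set.univ ↔ Yes τ x := by
  constructor
  · intro h ε hε
    obtain ⟨H, -, hH⟩ := h ε hε
    exact ⟨H, fun i P => hH i (Set.mem_univ i) P fun _ _ _ _ => Set.mem_univ _⟩
  · intro h ε hε
    obtain ⟨H, hH⟩ := h ε hε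
    exact ⟨H, fun _ _ _ _ => Set.mem_univ _, fun i _ P _ => hH i P⟩

/-! ### one variable -/

theorem ev_map {n : ℕ} (x : Fin m → A) (f : Fin n → Fin m) (w : List (Fin n)) :
    ev x (w.map f) = ev (x ∘ f) w := by
  simp [ev, List.map_map]

theorem getElem?_map' {n : ℕ} (f : Fin n → Fin m) (hf : Function.Injective f) (w : List (Fin n))
    (k : ℕ) (i : Fin n) : (w.map f)[k]? = some (f i) ↔ w[k]? = some i := by
  rw [List.getElem?_map]
  constructor
  · intro h
    rw [Option.map_eq_some_iff] at h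
    obtain ⟨a, h1, h2⟩ := h
    rw [h1, hf h2]
  · intro h
    rw [h]
    rfl

theorem dq_map {n : ℕ} (τ : A →ₗ[ℂ] ℂ) (x : Fin m → A) (f : Fin n → Fin m)
    (hf : Function.Injective f) (i : Fin n) (w : List (Fin n)) :
    dq (fun w => τ (ev x w)) (f i) (w.map f) = dq (fun w => τ (ev (x ∘ f) w)) i w := by
  unfold dq
  rw [List.length_map]
  refine Finset.sum_congr rfl fun k _ => ?_
  simp only [getElem?_map' f hf, ← List.map_take, ← List.map_drop, ev_map]

theorem dp_map {n : ℕ} (τ : A →ₗ[ℂ] ℂ) (x : Fin m → A) (f : Fin n → Fin m)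
    (hf : Function.Injective f) (i : Fin n) (P : List (Fin n) →₀ ℂ) :
    dp τ x (f i) (P.mapDomain (List.map f)) = dp τ (x ∘ f) i P := by
  unfold dp
  refine (Finsupp.sum_mapDomain_index (fun b => zero_mul _) (fun b r s => add_mul _ _ _)).trans ?_
  refine Finset.sum_congr rfl fun w _ => ?_
  show P w * dq (fun w => τ (ev x w)) (f i) (w.map f) = _
  rw [dq_map τ x f hf]

theorem pe_map {n : ℕ} (x : Fin m → A) (f : Fin n → Fin m) (P : List (Fin n) →₀ ℂ) :
    pe x (P.mapDomain (List.map f)) = pe (x ∘ f) P := by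
  unfold pe
  refine (Finsupp.sum_mapDomain_index (h := fun w r => r • ev x w) (fun b => zero_smul ℂ _)
    (fun b r s => add_smul r s _)).trans ?_
  refine Finset.sum_congr rfl fun w _ => ?_
  show P w • ev x (w.map f) = _
  rw [ev_map]

theorem lt_map {n : ℕ} (f : Fin n → Fin m) (P : List (Fin n) →₀ ℂ) :
    Lt (Set.range f) (P.mapDomain (List.map f)) := by
  intro w hw j hj
  obtain ⟨v, -, rfl⟩ := Finset.mem_image.1 (Finsupp.mapDomain_support hw)
  obtain ⟨a, -, rfl⟩ := List.mem_map.1 hj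
  exact ⟨a, rfl⟩

/-- A single variable with a conjugate variable. -/
theorem one_on (hONE : ONEStmt) (hDIC : DICStmt) (τ : A →ₗ[ℂ] ℂ) (hτ : IsTrace τ)
    (x : Fin m → A) (i : Fin m) (hx : IsSelfAdjoint (x i))
    (h : ∃ C : ℝ, ∀ P : List (Fin m) →₀ ℂ, Lt {i} P → ‖dp τ x i P‖ ≤ C * n2 τ (pe x P)) :
    YesOn τ x {i} := by
  obtain ⟨C, hC⟩ := h
  have hr : Set.range (fun _ : Fin 1 => i) = {i} := by
    ext j
    simp [eq_comm]
  have hf : Function.Injective (fun _ : Fin 1 => i) := fun a b _ => Subsingleton.elim a b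
  have := (hDIC 1 m A τ x (fun _ => i) hf).2 (hONE A τ hτ (x ∘ fun _ => i) hx ⟨C, fun k P => by
    have h1 := hC (P.mapDomain (List.map fun _ => i)) (hr ▸ lt_map (fun _ : Fin 1 => i) P)
    rw [pe_map] at h1
    have h2 := dp_map τ x (fun _ : Fin 1 => i) hf k P
    rw [← h2]
    exact h1⟩)
  rwa [hr] at this

end Pool.TAM
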