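import Pool.Agent.H34.CGS.All

/-!
Board tam (MP_286349_an, conjugate variables and cyclic gradients), helper34: row XXX = `def XXXStmt`.

THEOREM.  (I) (`JONStmt`) If `x_1, …, x_m` is divided into free blocks and the answer of Q1 is yes for
each block, then it is yes for `x`.  (II) (`ONEStmt`) It is yes for a single variable with a conjugate
variable.  (III) (`INEStmt`, `LINStmt`) `Yes` is invariant under elementary changes
`x_i ↦ x_i + p(x_j : j ≠ i)` and invertible linear changes.  So: yes for every tame image of a free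
family with finite free Fisher information, of tuples `y + sS` (`s` large), of `q`-Gaussian tuples, ...

Files: `Pool/Agent/H<k>/TAM/XXX.lean`, `import Pool.Agent.H34.TAM.Stmts` (it imports
`Pool.Agent.H34.CGS.All`: all theorems of boards cgr and cgs may be used: `Pool.CGS.two_thm`,
`pal_thm`, `dvc_thm`, `cgt_thm`, `dve_thm`, `rzx'`, `Pool.CGR.fsa_thm`, the lemmas of
`Pool.Agent.H51.CGR.FSB`), `namespace Pool.TAM`, `open Pool.CGR Pool.CGS`, helper lemmas in a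
sub-namespace, `theorem xxx_thm (h1 : YYYStmt) ... : XXXStmt` with the needs of the row in the order of
the table (fewer is fine).
-/

set_option autoImplicit false

noncomputable section

open Filter
open scoped Topology

namespace Pool.TAM

open Pool.CGR Pool.CGS

/-- The letters of the polynomial `P` are in `I`. -/
def Lt {α : Type} (I : Set α) (P : List α →₀ ℂ) : Prop := ∀ w ∈ P.support, ∀ j ∈ w, j ∈ I

/-- `Yes` for the sub-tuple of the `x_i`, `i ∈ I`. -/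
def YesOn {m : ℕ} {A : Type} [CStarAlgebra A] (τ : A →ₗ[ℂ] ℂ) (x : Fin m → A)
    (I : Set (Fin m)) : Prop :=
  ∀ ε : ℝ, 0 < ε → ∃ H : List (Fin m) →₀ ℂ, Lt I H ∧ ∀ i ∈ I, ∀ P : List (Fin m) →₀ ℂ, Lt I P →
    ‖dp τ x i P - τ (cp x i H * pe x P)‖ ≤ ε * n2 τ (pe x P)

/-! ### Substitutions -/

/-- The word `w` with the letter `i` replaced by `i + p`. -/
def sb {m : ℕ} (i : Fin m) (p : List (Fin m) →₀ ℂ) : List (Fin m) → (List (Fin m) →₀ ℂ)
  | [] => Finsupp.single [] 1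
  | j :: w => (sb i p w).mapDomain (fun W => j :: W) +
      if j = i then p.sum fun v r => r • (sb i p w).mapDomain (fun W => v ++ W) else 0

/-- The polynomial `P` with the letter `i` replaced by `i + p`. -/
def sbp {m : ℕ} (i : Fin m) (p P : List (Fin m) →₀ ℂ) : List (Fin m) →₀ ℂ :=
  P.sum fun w r => r • sb i p w

/-- The tuple `x` with `x_i` replaced by `x_i + p(x)`. -/
def el {m : ℕ} {A : Type} [Ring A] [Algebra ℂ A] (x : Fin m → A) (i : Fin m)
    (p : List (Fin m) →₀ ℂ) : Fin m → A :=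
  Function.update x i (x i + pe x p)

/-- **SUB** (chain rule).  Induction on `w` with `dvc_thm` (rules for `dv x k a (j :: W)` and
`dv x k a (v ++ W)`), `Finsupp.sum_add_index'`, `sum_mapDomain_index`, `sum_smul_index`.  For `j :: w` the
left side of (3) is `[j = k] a ev x' w + x_j L + [j = i] (D ev x' w + p(x) L)` with `x' = el x i p`,
`D = ∑ p_v dv x k a v`, `L` the left side for `w`; (2) is the same with `D = 0` (no letter `i` in `p`).
(4): `dv x k a v = dv x' k a v` if `v` has no letter `i` and `k ≠ i` (and the value `ev`). -/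
def SUBStmt : Prop :=
  ∀ (m : ℕ) (B : Type) [Ring B] [Algebra ℂ B] (x : Fin m → B) (i : Fin m)
    (p : List (Fin m) →₀ ℂ), Lt {i}ᶜ p → ∀ w : List (Fin m),
      ev (el x i p) w = pe x (sb i p w) ∧
      (∀ a : B, ((sb i p w).sum fun W r => r • dv x i a W) = dv (el x i p) i a w) ∧
      (∀ (k : Fin m) (a : B), k ≠ i → ((sb i p w).sum fun W r => r • dv x k a W) =
        dv (el x i p) k a w + dv (el x i p) i (p.sum fun v r => r • dv x k a v) w) ∧
      (∀ v : List (Fin m), (∀ j ∈ v, j ≠ i) → ev (el x i p) v = ev x v ∧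
        ∀ (k : Fin m) (a : B), dv (el x i p) k a v = dv x k a v)

/-- `c P d` -/
def cw {m : ℕ} (c d : List (Fin m)) (P : List (Fin m) →₀ ℂ) : List (Fin m) →₀ ℂ :=
  P.mapDomain fun w => c ++ w ++ d

/-- **QDE** (needs SUB).  `x' = el x i p`.  `dve_thm`: `dq = τ ((dv X k (ee τ) w) 1)`, `X j` = left
multiplication by `x_j` in `B = Module.End ℂ A`; `SUB` in `B` (`LinearMap.mulLeft ℂ (x_i + p(x)) = mulLeft
(x_i) + pe X p`).  In (3) the last term of `SUB` (3) has the direction `D = ∑ p_v dv X k (ee τ) v`, the sum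
of the operators `b ↦ c τ(d b)`, `v = c k d`; `τ ((dv X' i D w) 1) = ∑_{w = u i u'} τ(u(x') c) τ(d u'(x'))
= ∑ τ(c u(x')) τ(u'(x') d)`, which is `dq` of the word `c w d` at the letter `i` (not in `c`, `d`). -/
def QDEStmt : Prop :=
  ∀ (m : ℕ) (A : Type) [CStarAlgebra A] (τ : A →ₗ[ℂ] ℂ), IsTrace τ → ∀ (x : Fin m → A)
    (i : Fin m) (p : List (Fin m) →₀ ℂ), Lt {i}ᶜ p → ∀ P : List (Fin m) →₀ ℂ,
      pe (el x i p) P = pe x (sbp i p P) ∧
      dp τ (el x i p) i P = dp τ x i (sbp i p P) ∧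
      (∀ k : Fin m, k ≠ i → dp τ (el x i p) k P = dp τ x k (sbp i p P) -
        p.sum fun v r => r * ∑ l ∈ Finset.range v.length, if v[l]? = some k then
          dp τ x i (sbp i p (cw (v.take l) (v.drop (l + 1)) P)) else 0) ∧
      ∀ c d : List (Fin m), (∀ j ∈ c, j ≠ i) → (∀ j ∈ d, j ≠ i) →
        pe x (sbp i p (cw c d P)) = ev x c * pe x (sbp i p P) * ev x d

/-- **CDE** (needs SUB).  `x' = el x i p`, `x = el x' i (-p)`.  `cgt_thm` (`τ (cg x k w * a) = τ (dv x k a w)`)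
and `SUB` for `x'` and `-p`: `τ (cp x' k (sbp i (-p) H) * a) = ∑ H_w τ (dv x k a w) + ∑ H_w τ (dv x i D w)`,
`D = - ∑ p_v dv x' k a v = - ∑ p_v dv x k a v` (`SUB` (4)). -/
def CDEStmt : Prop :=
  ∀ (m : ℕ) (A : Type) [CStarAlgebra A] (τ : A →ₗ[ℂ] ℂ), IsTrace τ → ∀ (x : Fin m → A)
    (i : Fin m) (p : List (Fin m) →₀ ℂ), Lt {i}ᶜ p → ∀ (H : List (Fin m) →₀ ℂ) (a : A),
      τ (cp (el x i p) i (sbp i (-p) H) * a) = τ (cp x i H * a) ∧
      ∀ k : Fin m, k ≠ i → τ (cp (el x i p) k (sbp i (-p) H) * a) = τ (cp x k H * a) -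
        p.sum fun v r => r * ∑ l ∈ Finset.range v.length, if v[l]? = some k then
          τ (cp x i H * (ev x (v.take l) * a * ev x (v.drop (l + 1)))) else 0

/-- **N2M**.  `‖a‖² - a* a ≥ 0`, so `τ (b* a* a b) ≤ ‖a‖² τ (b* b)` (write `‖a‖² - a* a = c* c`,
`CStarAlgebra.nonneg_iff_eq_star_mul_self`); `n2 (star a) = n2 a` (`two_thm`). -/
def N2MStmt : Prop :=
  ∀ (A : Type) [CStarAlgebra A] (τ : A →ₗ[ℂ] ℂ), IsTrace τ → ∀ a b : A,
    n2 τ (a * b) ≤ ‖a‖ * n2 τ b ∧ n2 τ (a * b) ≤ n2 τ a * ‖b‖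

/-- **INE** (needs QDE, CDE, N2M).  `Yes` for `x` with `ε' = ε / (1 + M)`, `M = ∑ |p_v| ∑_{v = c k d}
‖c(x)‖ ‖d(x)‖` (a bound for all `k`), gives `H`; take `sbp i (-p) H`.  `P' = sbp i p P`.  For `k = i` the
difference is that of `x` for `P'`; for `k ≠ i` subtract `∑ p_v ∑_{v = c k d} (dp x i Q - τ (cp x i H *
pe x Q))`, `Q = sbp i p (cw c d P)`, `pe x Q = c(x) pe x P' d(x)` (`QDE` (4)). -/
def INEStmt : Prop :=
  ∀ (m : ℕ) (A : Type) [CStarAlgebra A] (τ : A →ₗ[ℂ] ℂ), IsTrace τ → ∀ (x : Fin m → A)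
    (i : Fin m) (p : List (Fin m) →₀ ℂ), Lt {i}ᶜ p → Yes τ x → Yes τ (el x i p)

/-- The tuple `∑_k T_jk x_k`. -/
def li {m : ℕ} {A : Type} [Ring A] [Algebra ℂ A] (T : Matrix (Fin m) (Fin m) ℂ) (x : Fin m → A) :
    Fin m → A :=
  fun j => ∑ k, T j k • x k

/-- The word `w` with each letter `j` replaced by `∑_k T_jk k`. -/
def sl {m : ℕ} (T : Matrix (Fin m) (Fin m) ℂ) : List (Fin m) → (List (Fin m) →₀ ℂ)
  | [] => Finsupp.single [] 1
  | j :: w => ∑ k, T j k • (sl T w).mapDomain (fun W => k :: W)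

/-- The same for polynomials. -/
def slp {m : ℕ} (T : Matrix (Fin m) (Fin m) ℂ) (P : List (Fin m) →₀ ℂ) : List (Fin m) →₀ ℂ :=
  P.sum fun w r => r • sl T w

/-- **LSU**.  Induction on `w`, as `SUB`. -/
def LSUStmt : Prop :=
  ∀ (m : ℕ) (B : Type) [Ring B] [Algebra ℂ B] (x : Fin m → B) (T : Matrix (Fin m) (Fin m) ℂ)
    (w : List (Fin m)), ev (li T x) w = pe x (sl T w) ∧
      ∀ (k : Fin m) (a : B), ((sl T w).sum fun W r => r • dv x k a W) =
        ∑ j, T j k • dv (li T x) j a w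

/-- **LIN** (needs LSU).  `x' = li T x`, `x = li T⁻¹ x'`.  (a) `pe x' P = pe x P'`, `P' = slp T P`;
`dp x k P' = ∑_j T_jk dp x' j P` (`dve_thm`), so `dp x' l P = ∑_k (T⁻¹)_kl dp x k P'`.  (b) for
`H' = slp T⁻¹ H`: `τ (cp x' l H' * a) = ∑_k (T⁻¹)_kl τ (cp x k H * a)` (`cgt_thm`, `LSU` for `x'`, `T⁻¹`).
So `H'` for `x'` with `ε' = ε / (1 + ∑ |(T⁻¹)_kl|)`. -/
def LINStmt : Prop :=
  ∀ (m : ℕ) (A : Type) [CStarAlgebra A] (τ : A →ₗ[ℂ] ℂ), IsTrace τ → ∀ (x : Fin m → A)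
    (T : Matrix (Fin m) (Fin m) ℂ), IsUnit T.det → Yes τ x → Yes τ (li T x)

/-! ### Free blocks -/

/-- The blocks `{x_i : c i = o}` are free. -/
def Blocks {m : ℕ} {A : Type} [Ring A] [Algebra ℂ A] (τ : A →ₗ[ℂ] ℂ) (x : Fin m → A)
    (c : Fin m → Fin m) : Prop :=
  FreeAlg τ fun o : Fin m => Algebra.adjoin ℂ (x '' (c ⁻¹' {o}))

/-- **VAN**.  `u = u° + τ(u)` with `u°` centred in `B o`; both products are alternating or lists without
the last factor (nonempty); same for the first factor; cf. `free_left`, `free_right` in `H51/CGR/FSB`. -/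
def VANStmt : Prop :=
  ∀ (A O : Type) [Ring A] [Algebra ℂ A] (τ : A →ₗ[ℂ] ℂ) (B : O → Subalgebra ℂ A), τ 1 = 1 →
    FreeAlg τ B → ∀ (l : List (O × A)), l ≠ [] → l.IsChain (fun a b => a.1 ≠ b.1) →
    (∀ a ∈ l, a.2 ∈ B a.1 ∧ τ a.2 = 0) → ∀ (o : O) (u : A), u ∈ B o →
      ((∀ a ∈ l.getLast?, a.1 ≠ o) → τ ((l.map Prod.snd).prod * u) = 0) ∧
      ((∀ a ∈ l.head?, a.1 ≠ o) → τ (u * (l.map Prod.snd).prod) = 0) ∧
      ((2 ≤ l.length ∨ ∀ a ∈ l, a.1 ≠ o) → τ ((l.map Prod.snd).prod * u) = 0)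

/-- **EXJ** (expectation onto a block; needs VAN).  In `FreeAlgebra ℂ (Fin m)` (words `w` ↦ product of the
`ι j`, `e = lift x`, `ψ = τ ∘ e`) the claim is linear in `P`; by `fsa_thm` it is enough to treat the
alternating centred products `l` (colours `c`).  Let `D i` be the linear functional with `D i (word w) =
dq (τ ∘ ev x) i w` (`De τ x (Pi.single i 1) · 1 1` of `H51/CGR/FSB`, which has the Leibniz rule: `D i` of
`a_1 ⋯ a_n` is `∑_k ∑ τ(a_1 ⋯ a_(k-1) u) τ(u' a_(k+1) ⋯ a_n)`, `u`, `u'` in the block of `i`, only for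
`a_k` in the block of `i`).  `l = []`: `P' = single [] 1`; `l = [a]`, `a` in block `o`: `P'` = a polynomial
in the letters of the block with `ι`-value `a`; `l = [a]`, other block: `P' = 0` (no letter `i`; VAN (3));
length `≥ 2`: `P' = 0`: `D i = 0` (VAN (1) for `k ≥ 2`, VAN (2) for `k < n`), and VAN (3). -/
def EXJStmt : Prop :=
  ∀ (m : ℕ) (A : Type) [CStarAlgebra A] (τ : A →ₗ[ℂ] ℂ), IsTrace τ → ∀ (x : Fin m → A)
    (c : Fin m → Fin m), Blocks τ x c → ∀ (o : Fin m) (P : List (Fin m) →₀ ℂ),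
      ∃ P' : List (Fin m) →₀ ℂ, Lt (c ⁻¹' {o}) P' ∧
        (∀ Q : List (Fin m) →₀ ℂ, Lt (c ⁻¹' {o}) Q →
          τ (pe x P * pe x Q) = τ (pe x P' * pe x Q)) ∧
        ∀ i : Fin m, c i = o → dp τ x i P = dp τ x i P'

/-- **LTP** (`PAL` with control of the letters).  As `pal_thm`.  (3) a letter that does not occur. -/
def LTPStmt : Prop :=
  ∀ (m : ℕ) (A : Type) [CStarAlgebra A] (x : Fin m → A) (I : Set (Fin m)),
    (∀ (i : Fin m) (P : List (Fin m) →₀ ℂ), Lt I P →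
      ∃ R : List (Fin m) →₀ ℂ, Lt I R ∧ pe x R = cp x i P) ∧
    ((∀ i, IsSelfAdjoint (x i)) → ∀ P : List (Fin m) →₀ ℂ, Lt I P →
      ∃ R : List (Fin m) →₀ ℂ, Lt I R ∧ pe x R = star (pe x P)) ∧
    (∀ (i : Fin m) (P : List (Fin m) →₀ ℂ), Lt I P → i ∉ I → cp x i P = 0) ∧
    ∀ (i : Fin m) (P Q : List (Fin m) →₀ ℂ), cp x i (P + Q) = cp x i P + cp x i Q

/-- **JON** (needs EXJ, LTP).  `H = ∑_o H_o`, `H_o` from `YesOn` for the block `o` and `ε`; `cp x i H =
cp x i H_(c i)` (LTP (3), (4)) `= pe x R` (LTP (1)).  For `P` let `P'` be from EXJ for `o = c i`: the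
difference for `P` is that for `P'` in the block, and `n2 (pe x P') ≤ n2 (pe x P)`, since
`n2 (pe x P')² = τ (pe x P' * star (pe x P')) = τ (pe x P * star (pe x P'))` (LTP (2), `two_thm`). -/
def JONStmt : Prop :=
  ∀ (m : ℕ) (A : Type) [CStarAlgebra A] (τ : A →ₗ[ℂ] ℂ), IsTrace τ → ∀ (x : Fin m → A)
    (c : Fin m → Fin m), (∀ i, IsSelfAdjoint (x i)) → Blocks τ x c →
    (∀ o, YesOn τ x (c ⁻¹' {o})) → Yes τ x

/-- **ONE** (one variable).  `rzx'` with `m = 1` for the tuple `y` and `d = dp τ y 0` (linear by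
`pal_thm`): a polynomial `R`; the words are `List.replicate n 0`; `H = ∑_n R_n / (n + 1) • replicate
(n + 1) 0` has `cp y 0 H = pe y R`. -/
def ONEStmt : Prop :=
  ∀ (A : Type) [CStarAlgebra A] (τ : A →ₗ[ℂ] ℂ), IsTrace τ → ∀ y : Fin 1 → A,
    IsSelfAdjoint (y 0) → HasConj τ y → Yes τ y

/-- **DIC** (a sub-tuple).  `f : Fin n → Fin m` injective, `y = x ∘ f`.  `P.mapDomain (List.map f)` has the
letters in the range of `f`, and every polynomial with letters in the range is of this form;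
`ev x (w.map f) = ev (x ∘ f) w`, `dq _ (f i) (w.map f) = dq _ i w`, `cg x (f i) (w.map f) = cg (x ∘ f) i w`. -/
def DICStmt : Prop :=
  ∀ (n m : ℕ) (A : Type) [CStarAlgebra A] (τ : A →ₗ[ℂ] ℂ) (x : Fin m → A) (f : Fin n → Fin m),
    Function.Injective f → (YesOn τ x (Set.range f) ↔ Yes τ (x ∘ f))

end Pool.TAM
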