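import Pool.Agent.H34.TAM.Stmts

/-!
Board aut (MP_286349_an, part 2 of board tam), helper34: row XXX = `def XXXStmt`.

THEOREM.  (A) (`AUTStmt`) `Yes` is invariant under all automorphisms of the free algebra: it depends
only on the algebra generated by `x_1, …, x_m`, not on the generators (`GENStmt`).  (B) (`EXCStmt`) the
expectation onto a free block maps cyclic gradients to cyclic gradients; so for free blocks `Yes` for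
`x` is equivalent to `Yes` for each block.

Files: `Pool/Agent/H<k>/AUT/XXX.lean`, `import Pool.Agent.H34.TAM.Stmts2`, `namespace Pool.AUT`,
`open Pool.CGR Pool.CGS Pool.TAM`, `open scoped TensorProduct`, helper lemmas in a sub-namespace,
`theorem xxx_thm (h1 : YYYStmt) ... : XXXStmt`, needs in the order of the table (fewer is fine).
-/

set_option autoImplicit false

noncomputable section

open Filter
open scoped Topology TensorProduct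

namespace Pool.AUT

open Pool.CGR Pool.CGS Pool.TAM MulOpposite

/-- The free algebra `E`. -/
abbrev Fr (m : ℕ) : Type := FreeAlgebra ℂ (Fin m)

/-- `T = E ⊗ E^op`, the product is `(a ⊗ b)(c ⊗ d) = ac ⊗ db`. -/
abbrev Te (m : ℕ) : Type := Fr m ⊗[ℂ] (Fr m)ᵐᵒᵖ

/-- The letters. -/
abbrev io {m : ℕ} (k : Fin m) : Fr m := FreeAlgebra.ι ℂ k

/-- The free difference quotients `∂_k : E → T`. -/
structure IsPd {m : ℕ} (D : Fin m → (Fr m →ₗ[ℂ] Te m)) : Prop where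
  gen : ∀ k j, D k (io j) = if j = k then 1 else 0
  mul : ∀ k a b, D k (a * b) = (a ⊗ₜ[ℂ] (1 : (Fr m)ᵐᵒᵖ)) * D k b + ((1 : Fr m) ⊗ₜ[ℂ] op b) * D k a

/-- `δ` is a derivation. -/
def IsDer {B : Type} [Ring B] [Algebra ℂ B] (δ : B →ₗ[ℂ] B) : Prop :=
  ∀ a b, δ (a * b) = δ a * b + a * δ b

/-- `op b ↦ b` -/
def uo (m : ℕ) : (Fr m)ᵐᵒᵖ →ₗ[ℂ] Fr m := (opLinearEquiv ℂ (M := Fr m)).symm.toLinearMap

/-- `δ ⊗ 1 + 1 ⊗ δ` -/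
def d2 {m : ℕ} (δ : Fr m →ₗ[ℂ] Fr m) : Te m →ₗ[ℂ] Te m :=
  TensorProduct.map δ LinearMap.id +
    TensorProduct.map LinearMap.id ((opLinearEquiv ℂ (M := Fr m)).toLinearMap ∘ₗ δ ∘ₗ uo m)

/-- `φ ⊗ φ` -/
def ph {m : ℕ} (φ : Fr m →ₐ[ℂ] Fr m) : Te m →ₐ[ℂ] Te m := Algebra.TensorProduct.map φ (AlgHom.op φ)

/-- `t ⊗ t` -/
def tt {m : ℕ} (t : Fr m →ₗ[ℂ] ℂ) : Te m →ₗ[ℂ] ℂ :=
  LinearMap.mul' ℂ ℂ ∘ₗ TensorProduct.map t (t ∘ₗ uo m)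

/-- `t ⊗ 1 + 1 ⊗ t`, that is `a ⊗ b ↦ t(b) a + t(a) b` -/
def re {m : ℕ} (t : Fr m →ₗ[ℂ] ℂ) : Te m →ₗ[ℂ] Fr m :=
  (TensorProduct.rid ℂ (Fr m)).toLinearMap ∘ₗ TensorProduct.map LinearMap.id (t ∘ₗ uo m) +
    (TensorProduct.lid ℂ (Fr m)).toLinearMap ∘ₗ TensorProduct.map t (uo m)

/-- **PDX**.  Algebra map `E → Matrix (Fin 2) (Fin 2) (E ⊗ E)`, `ι j ↦ !![ι j ⊗ 1, δ_jk; 0, 1 ⊗ ι j]`, the
entry `(0, 1)`, then `E ⊗ E → T`, `a ⊗ b ↦ a ⊗ op b`; or the bimodule `T` and `TrivSqZeroExt`. -/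
def PDXStmt : Prop :=
  ∀ m : ℕ, ∃ D : Fin m → (Fr m →ₗ[ℂ] Te m), IsPd D

/-- **DRX**.  `TrivSqZeroExt.snd` of the lift of `k ↦ inl (ι k) + inr (q k)` to `TrivSqZeroExt E E`, or
the entry `(0, 1)` of the lift of `k ↦ !![ι k, q k; 0, ι k]` to `Matrix (Fin 2) (Fin 2) E`. -/
def DRXStmt : Prop :=
  ∀ (m : ℕ) (q : Fin m → Fr m), ∃ δ : Fr m →ₗ[ℂ] Fr m, IsDer δ ∧ ∀ k, δ (io k) = q k

/-- **CHN** (chain rule).  `FreeAlgebra.induction` for `P`; `D k 1 = 0`; `ph φ (a ⊗ op b) = φ a ⊗ op (φ b)`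
and `(a ⊗ 1)`, `(1 ⊗ op b)` commute. -/
def CHNStmt : Prop :=
  ∀ (m : ℕ) (D : Fin m → (Fr m →ₗ[ℂ] Te m)), IsPd D → ∀ (φ : Fr m →ₐ[ℂ] Fr m) (P : Fr m)
    (k : Fin m), D k (φ P) = ∑ j, ph φ (D j P) * D k (φ (io j))

/-- **TDR**.  (1) `TensorProduct.induction_on` for both; (2) the same, `tt t ((a ⊗ op b)(c ⊗ op d)) =
t (ac) t (db)`; (3) `tt t (d2 δ (a ⊗ op b)) = t (δ a) t b + t a t (δ b)`; (4) `tt (t ∘ φ) = tt t ∘ ph φ`. -/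
def TDRStmt : Prop :=
  ∀ (m : ℕ), (∀ δ : Fr m →ₗ[ℂ] Fr m, IsDer δ → IsDer (d2 δ)) ∧
    ∀ t : Fr m →ₗ[ℂ] ℂ,
      ((∀ a b, t (a * b) = t (b * a)) → ∀ a b : Te m, tt t (a * b) = tt t (b * a)) ∧
      (∀ (δ : Fr m →ₗ[ℂ] Fr m) (z : Te m), tt t (d2 δ z) = t (δ (re t z))) ∧
      ∀ (φ : Fr m →ₐ[ℂ] Fr m) (z : Te m), tt (t ∘ₗ φ.toLinearMap) z = tt t (ph φ z)

/-- **COM** (needs TDR).  `FreeAlgebra.induction` for `f`: for `f = a b` both sides are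
`(a ⊗ 1) [b] + (1 ⊗ op b) [a] + (δ a ⊗ 1) D k b + (1 ⊗ op (δ b)) D k a`, `[a]` the claim for `a`. -/
def COMStmt : Prop :=
  ∀ (m : ℕ) (D : Fin m → (Fr m →ₗ[ℂ] Te m)), IsPd D → ∀ δ : Fr m →ₗ[ℂ] Fr m, IsDer δ →
    ∀ (f : Fr m) (k : Fin m), D k (δ f) = d2 δ (D k f) + ∑ l, D l f * D k (δ (io l))

/-- **MAT** (needs CHN, COM).  (1) CHN for `P = ψ (ι k)`, `φ P = ι k`.  (2) CHN for `ψ` and
`P = φ (ι j)`: `δ_jk = ∑_l ph ψ (D l (φ (ι j))) * D k (ψ (ι l))`; apply `ph φ` (`ph φ (ph ψ z) = z`).  (3)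
CHN and COM for `D k (φ (P j)) = D k (δ (φ (ι j)))`. -/
def MATStmt : Prop :=
  ∀ (m : ℕ) (D : Fin m → (Fr m →ₗ[ℂ] Te m)), IsPd D → ∀ φ ψ : Fr m →ₐ[ℂ] Fr m,
    (∀ a, φ (ψ a) = a) → (∀ a, ψ (φ a) = a) →
    (Matrix.of fun k j => ph φ (D j (ψ (io k)))) * (Matrix.of fun j k => D k (φ (io j))) = 1 ∧
    (Matrix.of fun j k => D k (φ (io j))) * (Matrix.of fun k j => ph φ (D j (ψ (io k)))) = 1 ∧
    ∀ δ : Fr m →ₗ[ℂ] Fr m, IsDer δ → ∀ P : Fin m → Fr m, (∀ j, φ (P j) = δ (φ (io j))) →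
      (Matrix.of fun j l => ph φ (D l (P j))) * (Matrix.of fun j k => D k (φ (io j))) =
        (Matrix.of fun j k => d2 δ (D k (φ (io j)))) +
          (Matrix.of fun j k => D k (φ (io j))) * (Matrix.of fun l k => D k (δ (io l)))

/-- **TRM**.  Matrices over a ring with a trace: `∑_j θ ((A B)_jj) = ∑_j ∑_k θ (A_jk B_kj)`.  (2) entrywise
derivation. -/
def TRMStmt : Prop :=
  ∀ (m : ℕ) (T : Type) [Ring T] [Algebra ℂ T],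
    (∀ θ : T →ₗ[ℂ] ℂ, (∀ a b, θ (a * b) = θ (b * a)) → ∀ A B : Matrix (Fin m) (Fin m) T,
      ∑ j, θ ((A * B) j j) = ∑ j, θ ((B * A) j j)) ∧
    ∀ δ : T →ₗ[ℂ] T, IsDer δ → ∀ A B : Matrix (Fin m) (Fin m) T,
      (A * B).map δ = A.map δ * B + A * B.map δ

/-- **LEM** (derivative of log det).  Polynomials `U = ∑ u_n t^n`, `V = ∑ v_n t^n` in `R[X]` (`R` not
commutative; `Polynomial.derivative_mul`), `V U = U V = 1`; `δ`, `κ` coefficientwise; `' = d/dt`.  `V' = - V U' V`,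
`δ V = - V (δ U) V`.  `f = κ (V δ U)`: `f' = - κ (V U' V δ U) + κ (V δ U') = κ (δ (V U'))` by the trace
property, and `f_0 = κ (v_0 δ u_0) = 0`; so `f_q = (1 / q) κ (δ ((V U')_(q-1)))`, and the left side is
`∑_q f_q` (`κ (v_i δ u_j) = 0` for `i ≥ N` or `j ≥ N`). -/
def LEMStmt : Prop :=
  ∀ (R : Type) [Ring R] [Algebra ℂ R] (κ : R →ₗ[ℂ] ℂ) (δ : R →ₗ[ℂ] R),
    (∀ a b, κ (a * b) = κ (b * a)) → IsDer δ → ∀ (N : ℕ) (u v : ℕ → R),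
    (∀ n, N ≤ n → u n = 0 ∧ v n = 0) →
    (∀ q : ℕ, ∑ p ∈ Finset.HasAntidiagonal.antidiagonal q, v p.1 * u p.2 = if q = 0 then 1 else 0) →
    (∀ q : ℕ, ∑ p ∈ Finset.HasAntidiagonal.antidiagonal q, u p.1 * v p.2 = if q = 0 then 1 else 0) →
    δ (u 0) = 0 →
    κ ((∑ n ∈ Finset.range N, v n) * δ (∑ n ∈ Finset.range N, u n)) =
      κ (δ (∑ q ∈ Finset.range (2 * N), ∑ p ∈ Finset.HasAntidiagonal.antidiagonal q,
        ((p.2 : ℂ) / (q : ℂ)) • (v p.1 * u p.2)))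

/-- **SCL** (the grading of `T`).  `S : T → T[X]` (`Algebra.TensorProduct.lift`, `AlgHom.op`/`unop`) with
`ι k ⊗ 1 ↦ (ι k ⊗ 1) X`, `1 ⊗ op (ι k) ↦ (1 ⊗ op (ι k)) X`; `c n z = (S z).coeff n`
(`Polynomial.coeff_mul`, value at `1`: induction on tensors, `FreeAlgebra.induction`). -/
def SCLStmt : Prop :=
  ∀ m : ℕ, ∃ c : ℕ → (Te m →ₗ[ℂ] Te m),
    (∀ z, ∃ N : ℕ, (∀ n, N ≤ n → c n z = 0) ∧ ∑ n ∈ Finset.range N, c n z = z) ∧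
    (∀ (q : ℕ) (z z' : Te m), c q (z * z') = ∑ p ∈ Finset.HasAntidiagonal.antidiagonal q, c p.1 z * c p.2 z') ∧
    (∀ z, ∃ r : ℂ, c 0 z = algebraMap ℂ (Te m) r) ∧ c 0 1 = 1 ∧ ∀ q, q ≠ 0 → c q 1 = 0

/-- **GRA** (needs TRM, LEM, SCL, TDR).  `LEM` in `R = Matrix (Fin m) (Fin m) T`, `κ A = ∑_j tt t (A j j)`,
`δ` = entrywise `d2 δ`, `u n = M.map (c n)`, `v n = M'.map (c n)`, `w` = the sum in `LEM` (it does not depend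
on `δ`); `d2 δ (u 0) = 0` since the entries are scalars (`δ 1 = 0`). -/
def GRAStmt : Prop :=
  ∀ (m : ℕ) (t : Fr m →ₗ[ℂ] ℂ), (∀ a b, t (a * b) = t (b * a)) →
    ∀ M M' : Matrix (Fin m) (Fin m) (Te m), M' * M = 1 → M * M' = 1 →
    ∃ w : Matrix (Fin m) (Fin m) (Te m), ∀ δ : Fr m →ₗ[ℂ] Fr m, IsDer δ →
      ∑ j, tt t ((M' * M.map (d2 δ)) j j) = ∑ j, tt t (d2 δ (w j j))

/-- **JAC** (needs MAT, GRA, TRM, TDR).  `N M = δ M + M N₀` gives `N = (δ M) M' + M N₀ M'`, so `κ N =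
κ (M' δ M) + κ N₀`; `W = ∑_j re t (w j j)`. -/
def JACStmt : Prop :=
  ∀ (m : ℕ) (D : Fin m → (Fr m →ₗ[ℂ] Te m)), IsPd D → ∀ φ ψ : Fr m →ₐ[ℂ] Fr m,
    (∀ a, φ (ψ a) = a) → (∀ a, ψ (φ a) = a) →
    ∀ t : Fr m →ₗ[ℂ] ℂ, (∀ a b, t (a * b) = t (b * a)) → ∃ W : Fr m,
      ∀ δ : Fr m →ₗ[ℂ] Fr m, IsDer δ → ∀ P : Fin m → Fr m, (∀ j, φ (P j) = δ (φ (io j))) →
        ∑ j, tt t (ph φ (D j (P j))) = ∑ k, tt t (D k (δ (io k))) + t (δ W)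

/-- `τ` as a functional on `E` -/
def tx {m : ℕ} {A : Type} [Ring A] [Algebra ℂ A] (τ : A →ₗ[ℂ] ℂ) (x : Fin m → A) :
    Fr m →ₗ[ℂ] ℂ := τ ∘ₗ (FreeAlgebra.lift ℂ x).toLinearMap

/-- **DPE**.  (1) every element is a polynomial (`FreeAlgebra.induction`); (2) linear, words; (3) for words:
induction (`j :: w`: `D i (ι j * b) = (ι j ⊗ 1) D i b + (1 ⊗ op b) δ_ij`; first prove
`D i (w.map io).prod = ∑_k if w[k]? = some i then (word (take k)) ⊗ op (word (drop (k+1)))`). -/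
def DPEStmt : Prop :=
  ∀ (m : ℕ) (A : Type) [Ring A] [Algebra ℂ A] (τ : A →ₗ[ℂ] ℂ) (x : Fin m → A)
    (D : Fin m → (Fr m →ₗ[ℂ] Te m)), IsPd D →
    (∀ q : Fr m, ∃ P : List (Fin m) →₀ ℂ, pe io P = q) ∧
    (∀ P : List (Fin m) →₀ ℂ, FreeAlgebra.lift ℂ x (pe io P) = pe x P) ∧
    ∀ (i : Fin m) (P : List (Fin m) →₀ ℂ), dp τ x i P = tt (tx τ x) (D i (pe io P))

/-- **CPE**.  Linear in `H`; for a word `w` of the `ι j`: `δ w = ∑_k ∑_{w = u k u'} u δ(ι k) u'` (induction),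
the sum over `k` of `dv io k (δ (ι k)) w`, and `cgt_thm`. -/
def CPEStmt : Prop :=
  ∀ (m : ℕ) (A : Type) [Ring A] [Algebra ℂ A] (τ : A →ₗ[ℂ] ℂ), (∀ a b, τ (a * b) = τ (b * a)) →
    ∀ (x : Fin m → A) (δ : Fr m →ₗ[ℂ] Fr m), IsDer δ → ∀ H : List (Fin m) →₀ ℂ,
      tx τ x (δ (pe io H)) = ∑ k, τ (cp x k H * FreeAlgebra.lift ℂ x (δ (io k)))

/-- **BND**.  `FreeAlgebra.induction` for `z`; for products `n2 (a b) ≤ ‖a‖ n2 b` and `≤ n2 a ‖b‖`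
(`Pool.TAM.N2MStmt`, the hypothesis `hN`), `two_thm`; `δ (algebraMap r) = 0`. -/
def BNDStmt : Prop :=
  Pool.TAM.N2MStmt → ∀ (m : ℕ) (A : Type) [CStarAlgebra A] (τ : A →ₗ[ℂ] ℂ), IsTrace τ →
    ∀ (y : Fin m → A) (z : Fr m), ∃ C : ℝ, 0 ≤ C ∧ ∀ (i : Fin m) (q : Fr m)
      (δ : Fr m →ₗ[ℂ] Fr m), IsDer δ → (∀ k, δ (io k) = if k = i then q else 0) →
        n2 τ (FreeAlgebra.lift ℂ y (δ z)) ≤ C * n2 τ (FreeAlgebra.lift ℂ y q)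

/-- **AUT** (needs PDX, DRX, JAC, TDR, DPE, CPE, BND).  `t = tx τ x`, `y j = lift x (φ (ι j))`, `lift y =
lift x ∘ φ`, `tx τ y = t ∘ φ`.  `C` = the sum of the constants of BND for `y` and `z = ψ (ι k)`; `ε' = ε /
(1 + C)`; `H` from `Yes τ x`; `W` from JAC; `H'` with `pe io H' = ψ (pe io H + W)`.  For `i`, `P`: `q = pe io P`,
`δ₀` the derivation with `ι i ↦ q`, the other letters `↦ 0`, `δ = φ δ₀ ψ`.  JAC with `P j = if j = i then q else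
0`: `dp τ y i P = ∑ k, tt t (D k (δ (ι k))) + t (δ W)` (TDR (4)).  CPE for `y`, `δ₀`: `τ (cp y i H' * pe y P) =
t (φ (δ₀ (pe io H'))) = t (δ (pe io H)) + t (δ W)`.  So the difference is `∑ k, (dp τ x k P_k -
τ (cp x k H * pe x P_k))`, `pe io P_k = δ (ι k)` (CPE for `x`, `δ`), and `n2 (pe x P_k) =
n2 (lift y (δ₀ (ψ (ι k)))) ≤ C_k n2 (pe y P)`. -/
def AUTStmt : Prop :=
  Pool.TAM.N2MStmt → ∀ (m : ℕ) (A : Type) [CStarAlgebra A] (τ : A →ₗ[ℂ] ℂ), IsTrace τ →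
    ∀ (x : Fin m → A) (φ ψ : Fr m →ₐ[ℂ] Fr m), (∀ a, φ (ψ a) = a) → (∀ a, ψ (φ a) = a) →
      Yes τ x → Yes τ (fun j => FreeAlgebra.lift ℂ x (φ (io j)))

/-- **GEN** (needs AUT).  `φ = lift F`, `lift x (F j) = y j`; `ψ = lift G`, `lift y (G k) = x k`; then
`lift x ∘ φ = lift y`, `lift y ∘ ψ = lift x`, and `lift x (φ (ψ a)) = lift x a`, so `φ (ψ a) = a`. -/
def GENStmt : Prop :=
  Pool.TAM.N2MStmt → ∀ (m : ℕ) (A : Type) [CStarAlgebra A] (τ : A →ₗ[ℂ] ℂ), IsTrace τ →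
    ∀ x y : Fin m → A, Function.Injective (FreeAlgebra.lift ℂ x) →
      Function.Injective (FreeAlgebra.lift ℂ y) →
      Algebra.adjoin ℂ (Set.range x) = Algebra.adjoin ℂ (Set.range y) → Yes τ x → Yes τ y

/-- **EXC** (expectation of cyclic gradients onto a block).  As `EXJ` (H83/TAM/EXJ may be imported): in
`FreeAlgebra ℂ (Fin m)` the claim `∀ i in o, q in the block: τ (e (δ_(i,q) P)) = τ (e (δ_(i,q) P'))` (`δ_(i,q)`: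
derivation with `ι i ↦ q`, other letters `↦ 0`; it is `dv`, see `cgt_thm`: `τ (cp x i H * a) = ∑ H_w
τ (dv x i a w)`) is linear in `P`; by `fsa_thm` treat alternating centred products `l = a_1 ⋯ a_n`: `δ l =
∑_k a_1 ⋯ δ(a_k) ⋯ a_n`, only `k` with `a_k` in the block `o`, and then `τ (a_1 ⋯ δ(a_k) ⋯ a_n) =
τ (δ a_k) τ (a_1 ⋯ a_(k-1) a_(k+1) ⋯ a_n)` since `δ a_k - τ (δ a_k)` is centred in the block `o` (alternating).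
So `P' = ∑_k τ (a_1 ⋯ a_(k-1) a_(k+1) ⋯ a_n) a_k` over the `k` with `a_k` in the block `o` (for `l = []`:
`P' = 0`). -/
def EXCStmt : Prop :=
  ∀ (m : ℕ) (A : Type) [CStarAlgebra A] (τ : A →ₗ[ℂ] ℂ), IsTrace τ → ∀ (x : Fin m → A)
    (c : Fin m → Fin m), Blocks τ x c → ∀ (o : Fin m) (H : List (Fin m) →₀ ℂ),
      ∃ H' : List (Fin m) →₀ ℂ, Lt (c ⁻¹' {o}) H' ∧ ∀ (i : Fin m), c i = o →
        ∀ Q : List (Fin m) →₀ ℂ, Lt (c ⁻¹' {o}) Q →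
          τ (cp x i H * pe x Q) = τ (cp x i H' * pe x Q)

/-- **JOC** (needs EXC): `H'` from EXC for the `H` of `Yes`. -/
def JOCStmt : Prop :=
  ∀ (m : ℕ) (A : Type) [CStarAlgebra A] (τ : A →ₗ[ℂ] ℂ), IsTrace τ → ∀ (x : Fin m → A)
    (c : Fin m → Fin m), Blocks τ x c → Yes τ x → ∀ o, YesOn τ x (c ⁻¹' {o})

end Pool.AUT
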