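import Pool.Agent.H34.TAM.Stmts2
import Mathlib.Algebra.Azumaya.Defs

/-!
Board per (MP_286349_an, part 3 of board tam), helper34: row XXX = `def XXXStmt`.

THEOREM (`PERStmt`).  If the answer of Q1 is yes for `x`, then for all polynomials `p_1, …, p_m` there is
`ε₀ > 0` such that it is yes for `x + ε p(x)` for all `|ε| ≤ ε₀`.

Files: `Pool/Agent/H<k>/PER/XXX.lean`, `import Pool.Agent.H34.TAM.Stmts3`, `namespace Pool.PER`,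
`open Pool.CGR Pool.CGS Pool.TAM Pool.AUT MulOpposite`, `open scoped TensorProduct`, helper lemmas in a
sub-namespace, `theorem xxx_thm (h1 : YYYStmt) ... : XXXStmt`, needs in the order of the table.
-/

set_option autoImplicit false

noncomputable section

open Filter
open scoped Topology TensorProduct

namespace Pool.PER

open Pool.CGR Pool.CGS Pool.TAM Pool.AUT MulOpposite

/-- The word `u` as an element of `E`. -/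
def wd {m : ℕ} (u : List (Fin m)) : Fr m := (u.map io).prod

/-- The action of `T` on `E`, `(a ⊗ op b) q = a q b`. -/
def ac {m : ℕ} (z : Te m) (q : Fr m) : Fr m := AlgHom.mulLeftRight ℂ (Fr m) z q

/-! ### Norms -/

/-- `μ` is the norm `∑ |q_u| r^|u|` of `E`: the largest seminorm with `μ(u) ≤ r^|u|` for the words. -/
structure IsMu {m : ℕ} (r : ℝ) (μ : Fr m → ℝ) : Prop where
  nonneg : ∀ q, 0 ≤ μ q
  add : ∀ q q', μ (q + q') ≤ μ q + μ q'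
  smul : ∀ (c : ℂ) (q : Fr m), μ (c • q) ≤ ‖c‖ * μ q
  gen : ∀ u : List (Fin m), μ (wd u) ≤ r ^ u.length
  max : ∀ (X : Fr m → ℝ) (K : ℝ), 0 ≤ K → (∀ q q', X (q + q') ≤ X q + X q') →
    (∀ (c : ℂ) (q : Fr m), X (c • q) ≤ ‖c‖ * X q) →
    (∀ u : List (Fin m), X (wd u) ≤ K * r ^ u.length) → ∀ q, X q ≤ K * μ q

/-- The weight of `u ⊗ v`. -/
def wt {m : ℕ} (r : ℝ) (u v : List (Fin m)) : ℝ :=
  (1 + (u.length : ℝ) + (v.length : ℝ)) * r ^ (u.length + v.length)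

/-- `ν` is the largest seminorm of `T` with `ν(u ⊗ v) ≤ wt r u v` for the words. -/
structure IsNu {m : ℕ} (r : ℝ) (ν : Te m → ℝ) : Prop where
  nonneg : ∀ z, 0 ≤ ν z
  add : ∀ z z', ν (z + z') ≤ ν z + ν z'
  smul : ∀ (c : ℂ) (z : Te m), ν (c • z) ≤ ‖c‖ * ν z
  gen : ∀ u v : List (Fin m), ν (wd u ⊗ₜ[ℂ] op (wd v)) ≤ wt r u v
  max : ∀ (X : Te m → ℝ) (K : ℝ), 0 ≤ K → (∀ z z', X (z + z') ≤ X z + X z') →
    (∀ (c : ℂ) (z : Te m), X (c • z) ≤ ‖c‖ * X z) →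
    (∀ u v : List (Fin m), X (wd u ⊗ₜ[ℂ] op (wd v)) ≤ K * wt r u v) → ∀ z, X z ≤ K * ν z

/-- **MUX**.  `μ q` = the infimum of `∑ ‖c‖ r^|u|` over the lists `l` of pairs `(c, u)` with
`q = ∑ c • wd u` (every `q` has one, `FreeAlgebra.induction`; bounded below by `0`); `max`: `X q ≤
∑ ‖c‖ X (wd u)` for each such list (`X 0 ≤ 0` by `smul` with `c = 0`). -/
def MUXStmt : Prop := ∀ (m : ℕ) (r : ℝ), 0 ≤ r → ∃ μ : Fr m → ℝ, IsMu r μ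

/-- **NUX**.  The same for `T` (`TensorProduct.induction_on` and the span of the words). -/
def NUXStmt : Prop := ∀ (m : ℕ) (r : ℝ), 0 ≤ r → ∃ ν : Te m → ℝ, IsNu r ν

/-- **MUM**.  `max` for `q ↦ μ (q * b)` and, for a word, `b ↦ μ (wd u * b)`. -/
def MUMStmt : Prop :=
  ∀ (m : ℕ) (r : ℝ) (μ : Fr m → ℝ), 0 ≤ r → IsMu r μ →
    μ 1 ≤ 1 ∧ (∀ a b, μ (a * b) ≤ μ a * μ b) ∧ (∀ k : Fin m, μ (io k) ≤ r) ∧ μ 0 = 0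

/-- **NUM**.  `wt (u ++ u') (v' ++ v) ≤ wt u v * wt u' v'`; `max` twice as in MUM. -/
def NUMStmt : Prop :=
  ∀ (m : ℕ) (r : ℝ) (ν : Te m → ℝ), 1 ≤ r → IsNu r ν →
    ν 1 ≤ 1 ∧ (∀ a b, ν (a * b) ≤ ν a * ν b) ∧ ν 0 = 0

/-- **MUS** (needs MUM).  `FreeAlgebra.induction` for `h`, also the bound `∃ B, ∀ F, (∀ j, μ (F j) ≤ s) →
μ (lift F h) ≤ B`; `a b - a' b' = (a - a') b + a' (b - b')`. -/
def MUSStmt : Prop :=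
  ∀ (m : ℕ) (r : ℝ) (μ : Fr m → ℝ), 0 ≤ r → IsMu r μ → ∀ (s : ℝ), 0 ≤ s → ∀ h : Fr m,
    ∃ B K : ℝ, 0 ≤ B ∧ 0 ≤ K ∧ ∀ F G : Fin m → Fr m, (∀ j, μ (F j) ≤ s) → (∀ j, μ (G j) ≤ s) →
      μ (FreeAlgebra.lift ℂ F h) ≤ B ∧
      ∀ η : ℝ, 0 ≤ η → (∀ j, μ (F j - G j) ≤ η) →
        μ (FreeAlgebra.lift ℂ F h - FreeAlgebra.lift ℂ G h) ≤ K * η

/-- **MUD**.  `IsMu.max` for `X q = ν (D k q)`: `D k (wd u)` is a sum of at most `n = |u|` terms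
`wd a ⊗ op (wd b)`, `|a| + |b| = n - 1`, so `X (wd u) ≤ n² r^(n-1) ≤ (4 r)^n`. -/
def MUDStmt : Prop :=
  ∀ (m : ℕ) (r : ℝ) (μ : Fr m → ℝ) (ν : Te m → ℝ) (D : Fin m → (Fr m →ₗ[ℂ] Te m)), 1 ≤ r →
    IsMu (4 * r) μ → IsNu r ν → IsPd D → ∀ (k : Fin m) (q : Fr m), ν (D k q) ≤ μ q

/-- The substitution `ι j ↦ ι j + ε p_j`. -/
def su {m : ℕ} (p : Fin m → Fr m) (ε : ℂ) : Fin m → Fr m := fun j => io j + ε • p j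

/-- **APP** (inverse, needs MUX, MUM, MUS, MUD).  `μ` for `4 r`, `s = 8 r`; `K` a common constant of MUS for
the `p j`, `B` a bound of the `μ (p j)`, `‖ε‖ K ≤ 1/2`, `‖ε‖ B' ≤ 4 r` (`B'` the bound of MUS).  `G_0 = ι`,
`G_(n+1) j = ι j - ε lift G_n (p j)`, `g_n j = lift F (G_n j)`, `F = su p ε`: `g_(n+1) j = F j -
ε lift g_n (p j)`, `g_(n+1) j - ι j = ε (p j - lift g_n (p j))`, so `μ (g_n j - ι j) ≤ 2^(-n) ‖ε‖ B → 0`.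
`H' = lift G_n h`: `lift F H' = lift g_n h`, `μ (h - lift g_n h) ≤ K_h 2^(-n) ‖ε‖ B`, then MUD. -/
def APPStmt : Prop :=
  ∀ (m : ℕ) (r : ℝ) (ν : Te m → ℝ) (D : Fin m → (Fr m →ₗ[ℂ] Te m)), 1 ≤ r → IsNu r ν → IsPd D →
    ∀ p : Fin m → Fr m, ∃ ε₀ : ℝ, 0 < ε₀ ∧ ∀ ε : ℂ, ‖ε‖ ≤ ε₀ → ∀ (h : Fr m) (η : ℝ), 0 < η →
      ∃ H' : Fr m, ∀ k, ν (D k (h - FreeAlgebra.lift ℂ (su p ε) H')) ≤ η

/-- The data: `r ≥ 1`, `‖x_i‖ ≤ r`. -/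
def Dat {m : ℕ} {A : Type} [CStarAlgebra A] (τ : A →ₗ[ℂ] ℂ) (x : Fin m → A) (r : ℝ)
    (ν : Te m → ℝ) : Prop := IsTrace τ ∧ 1 ≤ r ∧ (∀ i, ‖x i‖ ≤ r) ∧ IsNu r ν

/-- **NUA**.  `IsNu.max` three times, `‖lift x (wd u)‖ ≤ r^|u|`, `two_thm`, `N2M` (the first hypothesis):
`n2 (a q b) ≤ ‖a‖ ‖b‖ n2 q`; `|τ(a)| ≤ ‖a‖` (`two_thm` with `b = 1`); (3) `δ (wd u)` is the sum of `|u|` terms
`wd a * δ(ι k) * wd b`. -/
def NUAStmt : Prop :=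
  N2MStmt → ∀ (m : ℕ) (A : Type) [CStarAlgebra A] (τ : A →ₗ[ℂ] ℂ) (x : Fin m → A) (r : ℝ)
    (ν : Te m → ℝ), Dat τ x r ν → ∀ z : Te m,
      (∀ q, n2 τ (FreeAlgebra.lift ℂ x (ac z q)) ≤ ν z * n2 τ (FreeAlgebra.lift ℂ x q)) ∧
      ‖tt (tx τ x) z‖ ≤ ν z ∧
      ∀ δ : Fr m →ₗ[ℂ] Fr m, IsDer δ →
        ‖tt (tx τ x) (d2 δ z)‖ ≤ ν z * ∑ k, n2 τ (FreeAlgebra.lift ℂ x (δ (io k)))

/-- **NUF**.  `IsNu.max` in `z` and in `z'`; for words `z = a ⊗ op b`, `z' = c ⊗ op d`, `t = tx τ x`: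
`D k (a q b) z' = z (D k q) z' + (aq ⊗ 1) (D k b) z' + (1 ⊗ op (q b)) (D k a) z'`; `tt t` of the last two is
at most `|b| R ‖q‖₂`, `|a| R ‖q‖₂` (`R = r^(|a|+|b|+|c|+|d|)`); `tt t (z (D k q) z') = tt t ((z' z) D k q)`,
`z' z = ca ⊗ op (bd)`, and `(ca ⊗ op (bd)) D k q = D k (ca q bd) - (ca q ⊗ 1) D k (bd) - (1 ⊗ op (q b d))
D k (ca)`: at most `(C + |a| + |b| + |c| + |d|) R ‖q‖₂`. -/
def NUFStmt : Prop :=
  N2MStmt → ∀ (m : ℕ) (A : Type) [CStarAlgebra A] (τ : A →ₗ[ℂ] ℂ) (x : Fin m → A) (r : ℝ)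
    (ν : Te m → ℝ), Dat τ x r ν → ∀ D : Fin m → (Fr m →ₗ[ℂ] Te m), IsPd D →
    ∀ C : ℝ, 0 ≤ C → (∀ k q, ‖tt (tx τ x) (D k q)‖ ≤ C * n2 τ (FreeAlgebra.lift ℂ x q)) →
    ∀ (k : Fin m) (z z' : Te m) (q : Fr m), ‖tt (tx τ x) (D k (ac z q) * z')‖ ≤
      (C + 4) * ν z * ν z' * n2 τ (FreeAlgebra.lift ℂ x q)

/-- `∑_jk ν (A_jk)` -/
def nm {m : ℕ} (ν : Te m → ℝ) (A : Matrix (Fin m) (Fin m) (Te m)) : ℝ := ∑ j, ∑ k, ν (A j k)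

/-- `∑_(n ≤ N) L^n` -/
def geo {m : ℕ} (L : Matrix (Fin m) (Fin m) (Te m)) (N : ℕ) : Matrix (Fin m) (Fin m) (Te m) :=
  ∑ n ∈ Finset.range (N + 1), L ^ n

/-- `∑_(n ≤ N) L^(n+1) / (n+1)` -/
def lo {m : ℕ} (L : Matrix (Fin m) (Fin m) (Te m)) (N : ℕ) : Matrix (Fin m) (Fin m) (Te m) :=
  ∑ n ∈ Finset.range (N + 1), ((1 : ℂ) / ((n : ℂ) + 1)) • L ^ (n + 1)

/-- **NMM** (needs NUM).  `nm (A B) ≤ nm A nm B`, `nm 1 ≤ m`, geometric series. -/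
def NMMStmt : Prop :=
  ∀ (m : ℕ) (r : ℝ) (ν : Te m → ℝ), 1 ≤ r → IsNu r ν → ∀ L : Matrix (Fin m) (Fin m) (Te m),
    nm ν L ≤ 1 / 2 → (∀ n : ℕ, nm ν (L ^ (n + 1)) ≤ (1 / 2) ^ (n + 1)) ∧
      (∀ N, nm ν (geo L N) ≤ m + 1) ∧
      ∀ N N' : ℕ, N' ≤ N → nm ν (lo L N - lo L N') ≤ (1 / 2) ^ N'

/-- **LGT**.  `κ (L^n δ L) = κ (δ (L^(n+1))) / (n+1)` for a trace `κ` and a derivation `δ` (Leibniz rule for
powers). -/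
def LGTStmt : Prop :=
  ∀ (R : Type) [Ring R] [Algebra ℂ R] (κ : R →ₗ[ℂ] ℂ) (δ : R →ₗ[ℂ] R),
    (∀ a b, κ (a * b) = κ (b * a)) → IsDer δ → ∀ (L : R) (N : ℕ),
      κ ((∑ n ∈ Finset.range (N + 1), L ^ n) * δ L) =
        κ (δ (∑ n ∈ Finset.range (N + 1), ((1 : ℂ) / ((n : ℂ) + 1)) • L ^ (n + 1)))

/-- **IDN** (needs CHN, COM, TDR, TRM, LGT; all but LGT of board aut).  `φ = lift F`, `M = 1 - L`,
`S = geo L N`, `Λ = L^(N+1)`, `S M = M S = 1 - Λ`; `N_P` = the matrix with row `i` equal to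
`(ph φ (D l P))_l` and other rows `0`, `N_x = (D k (δ (ι l)))_lk`, `Err = (D k (e j))_jk`: `N_P M + Err =
δM + M N_x` (CHN for `φ P`, COM for `F j`).  Multiply by `S` on the left and take the trace
(`κ (S N_P M) = κ N_P - κ (N_P Λ)`, `κ (S M N_x) = κ N_x - κ (Λ N_x)`, `δ M = - δ L`, LGT). -/
def IDNStmt : Prop :=
  ∀ (m : ℕ) (D : Fin m → (Fr m →ₗ[ℂ] Te m)), IsPd D → ∀ t : Fr m →ₗ[ℂ] ℂ,
    (∀ a b, t (a * b) = t (b * a)) → ∀ (F : Fin m → Fr m) (L : Matrix (Fin m) (Fin m) (Te m)),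
    (∀ j k, D k (F j) = (1 - L) j k) → ∀ (N : ℕ) (δ : Fr m →ₗ[ℂ] Fr m), IsDer δ →
    ∀ (i : Fin m) (P : Fr m) (e : Fin m → Fr m),
    (∀ j, δ (F j) = (if j = i then FreeAlgebra.lift ℂ F P else 0) + e j) →
    tt t (ph (FreeAlgebra.lift ℂ F) (D i P)) =
      ∑ k, tt t (D k (δ (io k))) - ∑ j, tt t (d2 δ (lo L N j j))
        - ∑ j, ∑ k, tt t ((L ^ (N + 1)) j k * D j (δ (io k)))
        - ∑ j, ∑ k, tt t (geo L N j k * D j (e k))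
        + ∑ k, tt t (ph (FreeAlgebra.lift ℂ F) (D k P) * (L ^ (N + 1)) k i)

/-- **DIF**.  (1) `(z z')` acts as `z` after `z'`; (2) `φ (z q) = (φ ⊗ φ)(z) φ(q)`; (3) induction on `f`;
(4) `FreeAlgebra.induction` for `H`, or (3) and `CHN`. -/
def DIFStmt : Prop :=
  ∀ (m : ℕ) (D : Fin m → (Fr m →ₗ[ℂ] Te m)), IsPd D →
    (∀ (z z' : Te m) (q : Fr m), ac (z * z') q = ac z (ac z' q)) ∧
    (∀ (φ : Fr m →ₐ[ℂ] Fr m) (z : Te m) (q : Fr m), φ (ac z q) = ac (ph φ z) (φ q)) ∧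
    (∀ δ : Fr m →ₗ[ℂ] Fr m, IsDer δ → ∀ f, δ f = ∑ k, ac (D k f) (δ (io k))) ∧
    ∀ δ : Fr m →ₗ[ℂ] Fr m, IsDer δ → ∀ (φ : Fr m →ₐ[ℂ] Fr m) (H : Fr m),
      δ (φ H) = ∑ j, ac (ph φ (D j H)) (δ (φ (io j)))

/-- **LNK** (needs CPE, DRX of board aut and DIF).  `δ` = the derivation with `ι i ↦ pe io P`, other
letters `↦ 0`; CPE for `y` and `δ` and `H`: `τ (cp y i H * pe y P) = tx τ y (δ (pe io H))`, DIF (3), (2), and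
`tx τ y = tx τ x ∘ lift F`. -/
def LNKStmt : Prop :=
  ∀ (m : ℕ) (A : Type) [CStarAlgebra A] (τ : A →ₗ[ℂ] ℂ), IsTrace τ →
    ∀ (x : Fin m → A) (D : Fin m → (Fr m →ₗ[ℂ] Te m)), IsPd D → ∀ (F : Fin m → Fr m) (i : Fin m)
    (H P : List (Fin m) →₀ ℂ),
      τ (cp (fun j => FreeAlgebra.lift ℂ x (F j)) i H *
          pe (fun j => FreeAlgebra.lift ℂ x (F j)) P) =
        tx τ x (ac (ph (FreeAlgebra.lift ℂ F) (D i (pe io H))) (FreeAlgebra.lift ℂ F (pe io P)))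

/-- **YDV** (needs DPE, CPE of board aut).  `H` from `Yes`, `h = pe io H`; for `δ` let `pe io P_k = δ (ι k)`
(DPE (1)): the difference is `∑_k (dp τ x k P_k - τ (cp x k H * pe x P_k))`.  (2) `Yes` with `ε = 1` gives
`|dp| ≤ (n2 (cp x k H) + 1) n2` (`two_thm`; `n2 (star a) = n2 a`). -/
def YDVStmt : Prop :=
  ∀ (m : ℕ) (A : Type) [CStarAlgebra A] (τ : A →ₗ[ℂ] ℂ), IsTrace τ →
    ∀ (x : Fin m → A) (D : Fin m → (Fr m →ₗ[ℂ] Te m)), IsPd D → Yes τ x →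
      (∀ η : ℝ, 0 < η → ∃ h : Fr m, ∀ δ : Fr m →ₗ[ℂ] Fr m, IsDer δ →
        ‖∑ k, tt (tx τ x) (D k (δ (io k))) - tx τ x (δ h)‖ ≤
          η * ∑ k, n2 τ (FreeAlgebra.lift ℂ x (δ (io k)))) ∧
      ∃ C : ℝ, 0 ≤ C ∧ ∀ (k : Fin m) (q : Fr m),
        ‖tt (tx τ x) (D k q)‖ ≤ C * n2 τ (FreeAlgebra.lift ℂ x q)

/-- **PEA** (needs DRX, TDR of board aut and NUA, NUF, NMM, IDN, DIF).  `t = tx τ x`, `φ = lift F`, `q = φ P`,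
`S = geo L N`, `Λ = L^(N+1)`; `δ` with `δ (ι k) = ac (S k i) q` (DRX): `s = ∑_k n2 (δ (ι k)) ≤ nm S n2 q ≤
(m+1) n2 q`.  `δ (F j) = ∑_k ac ((1 - L) j k) (ac (S k i) q) = ac ((1 - Λ) j i) q = [j = i] q + e j`,
`e j = - ac (Λ j i) q` (DIF (3), (1)).  IDN; the terms `∑ tt (Λ jk * D j (ac (S k i) q))` and
`∑ tt (S jk * D j (ac (Λ k i) q))` are at most `(C+4) nm Λ nm S n2 q` each (TDR (2), NUF), the last one at most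
`∑_k ν (ph φ (D k P)) nm Λ` (NUA (2), NUM); `∑_j tt (d2 δ (lo L N j j)) = t (δ W) + tail`,
`W = ∑_j re t (lo L N' j j)` (TDR (3)), `|tail| ≤ 2^(-N') s` (NUA (3), NMM); `|∑ tt (D k (δ ι_k)) - t (δ h)| ≤ η s`;
`|t (δ (h - W - φ H'))| ≤ η s` (DIF (3), NUA (1), `|t a| ≤ n2 a`); `t (δ (φ H')) = t (ac (ph φ (D i H')) q) -
∑_j t (ac (ph φ (D j H') * Λ j i) q)` (DIF (4), (1)), the sum at most `∑_j ν (ph φ (D j H')) nm Λ n2 q`. -/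
def PEAStmt : Prop :=
  N2MStmt → NUMStmt → ∀ (m : ℕ) (A : Type) [CStarAlgebra A] (τ : A →ₗ[ℂ] ℂ) (x : Fin m → A)
    (r : ℝ) (ν : Te m → ℝ), Dat τ x r ν → ∀ D : Fin m → (Fr m →ₗ[ℂ] Te m), IsPd D →
    ∀ (F : Fin m → Fr m) (L : Matrix (Fin m) (Fin m) (Te m)),
    (∀ j k, D k (F j) = (1 - L) j k) → nm ν L ≤ 1 / 2 →
    ∀ C : ℝ, 0 ≤ C → (∀ k q, ‖tt (tx τ x) (D k q)‖ ≤ C * n2 τ (FreeAlgebra.lift ℂ x q)) →
    ∀ (η : ℝ) (h : Fr m), 0 ≤ η → (∀ δ : Fr m →ₗ[ℂ] Fr m, IsDer δ →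
      ‖∑ k, tt (tx τ x) (D k (δ (io k))) - tx τ x (δ h)‖ ≤
        η * ∑ k, n2 τ (FreeAlgebra.lift ℂ x (δ (io k)))) →
    ∀ (N' : ℕ) (H' : Fr m),
    (∀ k, ν (D k (h - ∑ j, re (tx τ x) (lo L N' j j) - FreeAlgebra.lift ℂ F H')) ≤ η) →
    ∀ (i : Fin m) (P : Fr m) (N : ℕ), N' ≤ N →
      ‖tt (tx τ x) (ph (FreeAlgebra.lift ℂ F) (D i P)) -
        tx τ x (ac (ph (FreeAlgebra.lift ℂ F) (D i H')) (FreeAlgebra.lift ℂ F P))‖ ≤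
      (2 * η + (1 / 2) ^ N') * (m + 1) *
          n2 τ (FreeAlgebra.lift ℂ x (FreeAlgebra.lift ℂ F P)) +
        (1 / 2) ^ (N + 1) * ((2 * (C + 4) * (m + 1) + ∑ j, ν (ph (FreeAlgebra.lift ℂ F) (D j H'))) *
          n2 τ (FreeAlgebra.lift ℂ x (FreeAlgebra.lift ℂ F P)) +
          ∑ k, ν (ph (FreeAlgebra.lift ℂ F) (D k P)))

/-- **PER** (needs PDX, TDR, DPE of board aut and NUX, NUM, APP, LNK, YDV, PEA).  `r = 1 + ∑ ‖x_i‖`, `ν` from NUX;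
`L j k = - ε • D k (p j)`, `F = su p ε`, `ε₀` = the minimum of that of APP and `1 / (2 (1 + ∑ ν (D k (p j))))`.
Given `ε' > 0`: `η = ε' / (4 (m + 1))`, `2^(-N') ≤ η`; `C`, `h` from YDV, `H'` from APP for
`h - ∑ re (lo L N' j j)`, `H` with `pe io H = H'` (DPE (1)).  For `i`, `P`: PEA for `pe io P` and all `N ≥ N'`; the left side
is `‖dp τ y i P - τ (cp y i H * pe y P)‖` (DPE (3) for `y`, `tx τ y = tx τ x ∘ lift F`, TDR (4), LNK), `lift x (lift F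
(pe io P)) = pe y P`; `N → ∞` (`ge_of_tendsto'` or an archimedean argument). -/
def PERStmt : Prop :=
  N2MStmt → ∀ (m : ℕ) (A : Type) [CStarAlgebra A] (τ : A →ₗ[ℂ] ℂ), IsTrace τ →
    ∀ (x : Fin m → A) (p : Fin m → Fr m), Yes τ x → ∃ ε₀ : ℝ, 0 < ε₀ ∧ ∀ ε : ℂ, ‖ε‖ ≤ ε₀ →
      Yes τ (fun j => x j + ε • FreeAlgebra.lift ℂ x (p j))

end Pool.PER
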